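import Pool.Agent.V5helper52.VM.Stm

/-!
# Project VM, job BLK: systems whose rows have supports on one side are products
-/

set_option autoImplicit false
set_option maxHeartbeats 400000

open CategoryTheory AlgebraicGeometry MvPolynomial Pool.Agent.Y116.UV Pool.Agent.V5helper52.SF
  Pool.Agent.V5helper52.TR Pool.Agent.V5helper52.FW Pool.Agent.V5helper52.PT TensorProduct

namespace Pool.Agent.V5helper61.VM

variable {k : Type} [Field k]

lemma aeval_ferm {E : ℕ} {τ B : Type} [Fintype τ] [CommRing B] [Algebra k B] (x : τ → B)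
    (c : τ → k) : aeval x (Ferm E τ c) = ∑ j, algebraMap k B (c j) * x j ^ E := by
  rw [Ferm, map_sum]
  refine Finset.sum_congr rfl fun j _ => ?_
  rw [map_mul, map_pow, aeval_C, aeval_X]

lemma map_ferm {E : ℕ} {τ B : Type} [Fintype τ] [CommRing B] [Algebra k B]
    (φ : MvPolynomial τ k →ₐ[k] B) (c : τ → k) :
    φ (Ferm E τ c) = ∑ j, algebraMap k B (c j) * φ (X j) ^ E := by
  rw [← aeval_ferm]
  congr 1
  exact aeval_unique φ

/-- `A` is presented by the system `M` -/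
structure Pres (E : ℕ) {κ σ A : Type} [Fintype σ] [CommRing A] [Algebra k A] (M : κ → σ → k)
    (q : MvPolynomial σ k →ₐ[k] A) : Prop where
  zero : ∀ i, q (Ferm E σ (M i)) = 0
  lift : ∀ (B : Type) [CommRing B] [Algebra k B] (φ : MvPolynomial σ k →ₐ[k] B),
    (∀ i, φ (Ferm E σ (M i)) = 0) → ∃ ψ : A →ₐ[k] B, ∀ j, ψ (q (X j)) = φ (X j)
  ext : ∀ (B : Type) [CommRing B] [Algebra k B] (ψ ψ' : A →ₐ[k] B),
    (∀ j, ψ (q (X j)) = ψ' (q (X j))) → ψ = ψ'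

lemma pres_quot (E : ℕ) {κ σ : Type} [Fintype σ] (M : κ → σ → k) :
    Pres E M (Ideal.Quotient.mkₐ k (sysI E M)) where
  zero i := Ideal.Quotient.eq_zero_iff_mem.2 (Ideal.subset_span ⟨i, rfl⟩)
  lift B _ _ φ h := by
    have h1 : sysI E M ≤ RingHom.ker φ := by
      rw [sysI, Ideal.span_le]
      rintro _ ⟨i, rfl⟩
      exact h i
    exact ⟨Ideal.Quotient.liftₐ (sysI E M) φ fun a ha => h1 ha, fun j => rfl⟩
  ext B _ _ ψ ψ' h := by
    refine Ideal.Quotient.algHom_ext _ ?_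
    exact MvPolynomial.algHom_ext fun j => h j

section

variable {E : ℕ} {κ τ₁ τ₂ A₁ A₂ Q : Type} [Fintype τ₁] [Fintype τ₂] [CommRing A₁] [Algebra k A₁]
  [CommRing A₂] [Algebra k A₂] [CommRing Q] [Algebra k Q] {M : κ → τ₁ ⊕ τ₂ → k}
  {q₁ : MvPolynomial τ₁ k →ₐ[k] A₁} {q₂ : MvPolynomial τ₂ k →ₐ[k] A₂}
  {q : MvPolynomial (τ₁ ⊕ τ₂) k →ₐ[k] Q}

lemma exists_left (h1 : Pres E (fun i j => M i (Sum.inl j)) q₁) (h : Pres E M q)
    (hM : ∀ i, (∀ j, M i (Sum.inl j) = 0) ∨ ∀ j, M i (Sum.inr j) = 0) :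
    ∃ ψ : A₁ →ₐ[k] Q, ∀ j, ψ (q₁ (X j)) = q (X (Sum.inl j)) := by
  obtain ⟨ψ, hψ⟩ := h1.lift Q (aeval fun j => q (X (Sum.inl j))) (fun i => by
    rw [aeval_ferm]
    rcases hM i with h2 | h2
    · refine Finset.sum_eq_zero fun j _ => ?_
      rw [h2, map_zero, zero_mul]
    · have h3 := h.zero i
      rw [map_ferm, Fintype.sum_sum_type, Finset.sum_eq_zero (f := fun j =>
        algebraMap k Q (M i (Sum.inr j)) * q (X (Sum.inr j)) ^ E)
        (fun j _ => by rw [h2, map_zero, zero_mul]), add_zero] at h3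
      exact h3)
  exact ⟨ψ, fun j => by rw [hψ, aeval_X]⟩

lemma exists_right (h1 : Pres E (fun i j => M i (Sum.inr j)) q₂) (h : Pres E M q)
    (hM : ∀ i, (∀ j, M i (Sum.inl j) = 0) ∨ ∀ j, M i (Sum.inr j) = 0) :
    ∃ ψ : A₂ →ₐ[k] Q, ∀ j, ψ (q₂ (X j)) = q (X (Sum.inr j)) := by
  obtain ⟨ψ, hψ⟩ := h1.lift Q (aeval fun j => q (X (Sum.inr j))) (fun i => by
    rw [aeval_ferm]
    rcases hM i with h2 | h2
    · have h3 := h.zero i
      rw [map_ferm, Fintype.sum_sum_type, Finset.sum_eq_zero (f := fun j =>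
        algebraMap k Q (M i (Sum.inl j)) * q (X (Sum.inl j)) ^ E)
        (fun j _ => by rw [h2, map_zero, zero_mul]), zero_add] at h3
      exact h3
    · refine Finset.sum_eq_zero fun j _ => ?_
      rw [h2, map_zero, zero_mul])
  exact ⟨ψ, fun j => by rw [hψ, aeval_X]⟩

lemma exists_sum {T : Type} [CommRing T] [Algebra k T] (h1 : Pres E (fun i j => M i (Sum.inl j)) q₁)
    (h2 : Pres E (fun i j => M i (Sum.inr j)) q₂) (h : Pres E M q) (f₁ : A₁ →ₐ[k] T)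
    (f₂ : A₂ →ₐ[k] T) : ∃ ψ : Q →ₐ[k] T, (∀ j, ψ (q (X (Sum.inl j))) = f₁ (q₁ (X j))) ∧
      ∀ j, ψ (q (X (Sum.inr j))) = f₂ (q₂ (X j)) := by
  obtain ⟨ψ, hψ⟩ := h.lift T (aeval (Sum.elim (fun j => f₁ (q₁ (X j))) fun j => f₂ (q₂ (X j))))
    (fun i => by
      have h3 : f₁ (q₁ (Ferm E τ₁ fun j => M i (Sum.inl j))) = 0 := by rw [h1.zero i, map_zero]
      have h4 : f₂ (q₂ (Ferm E τ₂ fun j => M i (Sum.inr j))) = 0 := by rw [h2.zero i, map_zero]
      rw [← AlgHom.comp_apply, map_ferm] at h3 h4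
      rw [aeval_ferm, Fintype.sum_sum_type]
      simp only [Sum.elim_inl, Sum.elim_inr]
      simp only [AlgHom.comp_apply] at h3 h4
      rw [h3, h4, add_zero])
  refine ⟨ψ, fun j => ?_, fun j => ?_⟩
  · rw [hψ, aeval_X, Sum.elim_inl]
  · rw [hψ, aeval_X, Sum.elim_inr]

lemma exists_iso (h1 : Pres E (fun i j => M i (Sum.inl j)) q₁)
    (h2 : Pres E (fun i j => M i (Sum.inr j)) q₂) (h : Pres E M q)
    (hM : ∀ i, (∀ j, M i (Sum.inl j) = 0) ∨ ∀ j, M i (Sum.inr j) = 0) :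
    Nonempty ((A₁ ⊗[k] A₂) ≃ₐ[k] Q) := by
  obtain ⟨g₁, hg₁⟩ := exists_left h1 h hM
  obtain ⟨g₂, hg₂⟩ := exists_right h2 h hM
  obtain ⟨f, hf₁, hf₂⟩ := exists_sum h1 h2 h
    (Algebra.TensorProduct.includeLeft : A₁ →ₐ[k] A₁ ⊗[k] A₂)
    (Algebra.TensorProduct.includeRight : A₂ →ₐ[k] A₁ ⊗[k] A₂)
  let g : A₁ ⊗[k] A₂ →ₐ[k] Q := Algebra.TensorProduct.lift g₁ g₂ (fun _ _ => Commute.all _ _)
  have hgl : ∀ a, g ((Algebra.TensorProduct.includeLeft : A₁ →ₐ[k] A₁ ⊗[k] A₂) a) = g₁ a := fun a => by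
    rw [Algebra.TensorProduct.includeLeft_apply]
    change Algebra.TensorProduct.lift g₁ g₂ _ (a ⊗ₜ[k] 1) = _
    rw [Algebra.TensorProduct.lift_tmul, map_one, mul_one]
  have hgr : ∀ a, g ((Algebra.TensorProduct.includeRight : A₂ →ₐ[k] A₁ ⊗[k] A₂) a) = g₂ a := fun a => by
    rw [Algebra.TensorProduct.includeRight_apply]
    change Algebra.TensorProduct.lift g₁ g₂ _ (1 ⊗ₜ[k] a) = _
    rw [Algebra.TensorProduct.lift_tmul, map_one, one_mul]
  refine ⟨AlgEquiv.ofAlgHom g f ?_ ?_⟩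
  · refine h.ext Q _ _ fun j => ?_
    rw [AlgHom.comp_apply, AlgHom.id_apply]
    rcases j with j | j
    · rw [hf₁, hgl, hg₁]
    · rw [hf₂, hgr, hg₂]
  · have e1 : (f.comp g).comp (Algebra.TensorProduct.includeLeft : A₁ →ₐ[k] A₁ ⊗[k] A₂) =
        Algebra.TensorProduct.includeLeft := by
      refine h1.ext _ _ _ fun j => ?_
      rw [AlgHom.comp_apply, AlgHom.comp_apply, hgl, hg₁, hf₁]
    have e2 : (f.comp g).comp (Algebra.TensorProduct.includeRight : A₂ →ₐ[k] A₁ ⊗[k] A₂) =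
        Algebra.TensorProduct.includeRight := by
      refine h2.ext _ _ _ fun j => ?_
      rw [AlgHom.comp_apply, AlgHom.comp_apply, hgr, hg₂, hf₂]
    apply Algebra.TensorProduct.ext'
    intro a b
    have e3 : a ⊗ₜ[k] b = (Algebra.TensorProduct.includeLeft : A₁ →ₐ[k] A₁ ⊗[k] A₂) a *
        (Algebra.TensorProduct.includeRight : A₂ →ₐ[k] A₁ ⊗[k] A₂) b := by
      rw [Algebra.TensorProduct.includeLeft_apply, Algebra.TensorProduct.includeRight_apply,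
        Algebra.TensorProduct.tmul_mul_tmul, mul_one, one_mul]
    rw [e3, map_mul, map_mul]
    have e4 := DFunLike.congr_fun e1 a
    have e5 := DFunLike.congr_fun e2 b
    rw [AlgHom.comp_apply] at e4 e5
    rw [e4, e5]
    rfl

end

theorem t_BLK : Pool.Agent.V5helper52.VM.S_BLK := by
  intro k _ P hP E _ κ τ₁ τ₂ _ _ M hM h1 h2
  obtain ⟨e⟩ := exists_iso (pres_quot E fun i j => M i (Sum.inl j))
    (pres_quot E fun i j => M i (Sum.inr j)) (pres_quot E M) hM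
  exact iso_alg hP.toUni e (hP.prod _ _ h1 h2)

end Pool.Agent.V5helper61.VM
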